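import Mathlib
import Pool.Agent.Helper92.RK.Basic

/-!
# Theorem R, D1: the ideal is prime
-/

set_option autoImplicit false

namespace Pool.Agent.Helper64.RK

open Pool.Agent.Helper92.RK

section poly

open Polynomial

/-- A quadratic polynomial with coprime leading coefficients and nonsquare discriminant. -/
theorem irr_quad {R : Type*} [CommRing R] [IsDomain R] [IsIntegrallyClosed R] (a b c : R)
    (ha : a ≠ 0) (hc : IsRelPrime a b) (hq : ∀ g : R, g ^ 2 ≠ b ^ 2 - 4 * a * c) :
    Irreducible (C a * X ^ 2 + C b * X + C c : R[X]) := by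
  have hprim : (C a * X ^ 2 + C b * X + C c : R[X]).IsPrimitive := by
    intro r hr
    rw [C_dvd_iff_dvd_coeff] at hr
    apply hc
    · have := hr 2
      simpa [coeff_X, coeff_C] using this
    · have := hr 1
      simpa [coeff_X, coeff_C] using this
  have hinj : Function.Injective (algebraMap R (FractionRing R)) := IsFractionRing.injective _ _
  refine hprim.irreducible_of_irreducible_map_of_injective hinj ?_
  have hm : map (algebraMap R (FractionRing R)) (C a * X ^ 2 + C b * X + C c) =
      C (algebraMap R (FractionRing R) a) * X ^ 2 + C (algebraMap R (FractionRing R) b) * X +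
        C (algebraMap R (FractionRing R) c) := by
    simp
  have ha' : algebraMap R (FractionRing R) a ≠ 0 := fun h => ha (hinj (by rw [h, map_zero]))
  have hd := natDegree_quadratic (b := algebraMap R (FractionRing R) b)
    (c := algebraMap R (FractionRing R) c) ha'
  rw [hm, irreducible_iff_roots_eq_zero_of_degree_le_three (by rw [hd]) (by rw [hd]; norm_num)]
  rw [Multiset.eq_zero_iff_forall_notMem]
  intro z hz
  have hz0 := (mem_roots'.mp hz).2
  rw [IsRoot.def] at hz0
  simp only [eval_add, eval_mul, eval_C, eval_pow, eval_X] at hz0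
  set φ := algebraMap R (FractionRing R) with hφ
  have h1 : (2 * φ a * z + φ b) ^ 2 = φ (b ^ 2 - 4 * a * c) := by
    rw [map_sub, map_pow, map_mul, map_mul, map_ofNat]
    linear_combination (4 * φ a) * hz0
  have h2 : IsIntegral R ((2 * φ a * z + φ b) ^ 2) := by
    rw [h1]
    exact isIntegral_algebraMap
  obtain ⟨g, hg⟩ := IsIntegrallyClosed.exists_algebraMap_eq_of_isIntegral_pow
    (K := FractionRing R) (by norm_num : 0 < 2) h2
  apply hq g
  apply hinj
  rw [map_pow, hg, h1]

end poly

open MvPolynomial

/-- The last variable is separated. -/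
def sg (s b : ℕ) : Fin (s + 1) ⊕ Fin b ≃ Option (Fin s ⊕ Fin b) where
  toFun := Sum.elim (Fin.lastCases none fun i => some (.inl i)) fun j => some (.inr j)
  invFun o := o.elim (.inl (Fin.last s)) (Sum.map Fin.castSucc id)
  left_inv := by
    rintro (i | j)
    · refine Fin.lastCases ?_ (fun i => ?_) i
      · simp
      · simp
    · rfl
  right_inv := by
    rintro (_ | i | j)
    · simp
    · simp
    · rfl

/-- Polynomials in the last variable. -/
noncomputable def eo (K : Type) [Field K] (s b : ℕ) :
    MvPolynomial (Fin (s + 1) ⊕ Fin b) K ≃ₐ[K] Polynomial (MvPolynomial (Fin s ⊕ Fin b) K) :=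
  (renameEquiv K (sg s b)).trans (optionEquivLeft K (Fin s ⊕ Fin b))

variable {K : Type} [Field K] {s b : ℕ}

theorem eo_last : eo K s b (X (.inl (Fin.last s))) = Polynomial.X := by
  show optionEquivLeft K (Fin s ⊕ Fin b) (rename (sg s b) (X (.inl (Fin.last s)))) = _
  rw [rename_X]
  have h : sg s b (.inl (Fin.last s)) = none := by simp [sg]
  rw [h, optionEquivLeft_X_none]

theorem eo_rename (p : MvPolynomial (Fin s ⊕ Fin b) K) :
    eo K s b (rename (Sum.map Fin.castSucc id) p) = Polynomial.C p := by
  induction p using MvPolynomial.induction_on with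
  | C a =>
    rw [rename_C]
    show optionEquivLeft K (Fin s ⊕ Fin b) (rename (sg s b) (C a)) = _
    rw [rename_C, optionEquivLeft_C]
  | add p q hp hq => rw [map_add, map_add, hp, hq, map_add]
  | mul_X p i hp =>
    rw [map_mul, map_mul, hp, map_mul, rename_X]
    congr 1
    show optionEquivLeft K (Fin s ⊕ Fin b) (rename (sg s b) (X (Sum.map Fin.castSucc id i))) = _
    rw [rename_X]
    have h : sg s b (Sum.map Fin.castSucc id i) = some i := by
      rcases i with i | j
      · simp [sg]
      · rfl
    rw [h, optionEquivLeft_X_some]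

variable {M : Finset (Fin b →₀ ℕ)}

theorem eo_form (a : Ix (s + 1) M → K) :
    eo K s b (form a) = Polynomial.C (form (sub 2 a)) * Polynomial.X ^ 2 +
      Polynomial.C (form (sub 1 a)) * Polynomial.X + Polynomial.C (form (sub 0 a)) := by
  rw [form_eq, Fin.sum_univ_three]
  simp only [map_add, map_mul, map_pow, eo_rename, eo_last]
  simp only [Fin.val_zero, Fin.val_one, Fin.val_two, pow_zero, pow_one, mul_one]
  ring

/-- D1 -/
theorem prime_of {b : ℕ} {M : Finset (Fin b →₀ ℕ)} {K : Type} [Field K] [CharZero K] {s : ℕ}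
    (a : Ix (s + 1) M → K)
    (hc : IsRelPrime (form (sub 2 a)) (form (sub 1 a))) (hA : form (sub 2 a) ≠ 0)
    (hq : ∀ g : MvPolynomial (Fin s ⊕ Fin b) K, g ^ 2 ≠ dis a) :
    (Ideal.span {form a}).IsPrime := by
  have h1 := irr_quad (form (sub 2 a)) (form (sub 1 a)) (form (sub 0 a)) hA hc hq
  rw [← eo_form] at h1
  have h2 : Irreducible (form a) := (MulEquiv.irreducible_iff (eo K s b)).mp h1
  rw [Ideal.span_singleton_prime h2.ne_zero]
  exact h2.prime

end Pool.Agent.Helper64.RK
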